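import Mathlib

set_option autoImplicit false

namespace Pool.Agent.H.MP_5dc923_co

/-- In the Petersen graph an edge set alternating with respect to the spokes uses 0 or 4 spokes. -/
theorem pet (y : Fin 15 → ℕ) (h1 : ∀ e, y e ≤ 1)
    (ht : y 0 + y 4 = y 5 ∧ y 0 + y 1 = y 6 ∧ y 1 + y 2 = y 7 ∧ y 2 + y 3 = y 8 ∧ y 3 + y 4 = y 9 ∧ y 10 + y 14 = y 5 ∧ y 10 + y 11 = y 7 ∧ y 11 + y 12 = y 9 ∧ y 12 + y 13 = y 6 ∧ y 13 + y 14 = y 8) :
    4 ∣ y 5 + y 6 + y 7 + y 8 + y 9 := by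
  obtain ⟨a0, a1, a2, a3, a4, a5, a6, a7, a8, a9⟩ := ht
  have b0 := h1 0
  have b1 := h1 1
  have b2 := h1 2
  have b3 := h1 3
  have b4 := h1 4
  have b5 := h1 5
  have b6 := h1 6
  have b7 := h1 7
  have b8 := h1 8
  have b9 := h1 9
  have b10 := h1 10
  have b11 := h1 11
  have b12 := h1 12
  have b13 := h1 13
  have b14 := h1 14
  generalize y 0 = y0 at *
  generalize y 1 = y1 at *
  generalize y 2 = y2 at *
  generalize y 3 = y3 at *
  generalize y 4 = y4 at *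
  interval_cases y0 <;> interval_cases y1 <;> interval_cases y2 <;> interval_cases y3 <;>
    interval_cases y4 <;> omega

theorem tight_each {m : ℕ} (a b s : Fin m → ℕ) (ha : ∀ j, a j ≤ 1) (hb : ∀ j, b j ≤ 1)
    (hs : ∀ j, s j ≤ 1) (he : ∀ j, (a j + b j + s j) % 2 = 0)
    (ht : ∑ j, a j + ∑ j, b j = ∑ j, s j) : ∀ j, a j + b j = s j := by
  have hle : ∀ j ∈ (Finset.univ : Finset (Fin m)), s j ≤ a j + b j := by
    intro j _
    have := ha j; have := hb j; have := hs j; have := he j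
    omega
  rw [← Finset.sum_add_distrib] at ht
  intro j
  exact ((Finset.sum_eq_sum_iff_of_le hle).1 ht.symm j (Finset.mem_univ j)).symm

theorem fam {m : ℕ} (y : Fin m → Fin 15 → ℕ) (h1 : ∀ j e, y j e ≤ 1)
    (he : ∀ j, (y j 0 + y j 4 + y j 5) % 2 = 0 ∧ (y j 0 + y j 1 + y j 6) % 2 = 0 ∧ (y j 1 + y j 2 + y j 7) % 2 = 0 ∧ (y j 2 + y j 3 + y j 8) % 2 = 0 ∧ (y j 3 + y j 4 + y j 9) % 2 = 0 ∧ (y j 10 + y j 14 + y j 5) % 2 = 0 ∧ (y j 10 + y j 11 + y j 7) % 2 = 0 ∧ (y j 11 + y j 12 + y j 9) % 2 = 0 ∧ (y j 12 + y j 13 + y j 6) % 2 = 0 ∧ (y j 13 + y j 14 + y j 8) % 2 = 0)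
    (c : Fin 15 → ℕ) (hc : ∀ e, c e = ∑ j, y j e)
    (ht : c 0 + c 4 = c 5 ∧ c 0 + c 1 = c 6 ∧ c 1 + c 2 = c 7 ∧ c 2 + c 3 = c 8 ∧ c 3 + c 4 = c 9 ∧ c 10 + c 14 = c 5 ∧ c 10 + c 11 = c 7 ∧ c 11 + c 12 = c 9 ∧ c 12 + c 13 = c 6 ∧ c 13 + c 14 = c 8) :
    4 ∣ c 5 + c 6 + c 7 + c 8 + c 9 := by
  simp only [hc] at ht ⊢
  obtain ⟨a0, a1, a2, a3, a4, a5, a6, a7, a8, a9⟩ := ht
  simp only [← Finset.sum_add_distrib]
  refine Finset.dvd_sum fun j _ => pet (y j) (h1 j) ⟨?_, ?_, ?_, ?_, ?_, ?_, ?_, ?_, ?_, ?_⟩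
  · exact tight_each _ _ _ (fun j => h1 j 0) (fun j => h1 j 4) (fun j => h1 j 5) (fun j => (he j).1) a0 j
  · exact tight_each _ _ _ (fun j => h1 j 0) (fun j => h1 j 1) (fun j => h1 j 6) (fun j => (he j).2.1) a1 j
  · exact tight_each _ _ _ (fun j => h1 j 1) (fun j => h1 j 2) (fun j => h1 j 7) (fun j => (he j).2.2.1) a2 j
  · exact tight_each _ _ _ (fun j => h1 j 2) (fun j => h1 j 3) (fun j => h1 j 8) (fun j => (he j).2.2.2.1) a3 j
  · exact tight_each _ _ _ (fun j => h1 j 3) (fun j => h1 j 4) (fun j => h1 j 9) (fun j => (he j).2.2.2.2.1) a4 j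
  · exact tight_each _ _ _ (fun j => h1 j 10) (fun j => h1 j 14) (fun j => h1 j 5) (fun j => (he j).2.2.2.2.2.1) a5 j
  · exact tight_each _ _ _ (fun j => h1 j 10) (fun j => h1 j 11) (fun j => h1 j 7) (fun j => (he j).2.2.2.2.2.2.1) a6 j
  · exact tight_each _ _ _ (fun j => h1 j 11) (fun j => h1 j 12) (fun j => h1 j 9) (fun j => (he j).2.2.2.2.2.2.2.1) a7 j
  · exact tight_each _ _ _ (fun j => h1 j 12) (fun j => h1 j 13) (fun j => h1 j 6) (fun j => (he j).2.2.2.2.2.2.2.2.1) a8 j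
  · exact tight_each _ _ _ (fun j => h1 j 13) (fun j => h1 j 14) (fun j => h1 j 8) (fun j => (he j).2.2.2.2.2.2.2.2.2) a9 j


def ea (e : Fin 15) : Fin 10 := Fin.ofNat 10 (([0, 1, 2, 3, 4, 0, 1, 2, 3, 4, 5, 7, 9, 6, 8] : List ℕ).getD e.val 0)
def eb (e : Fin 15) : Fin 10 := Fin.ofNat 10 (([1, 2, 3, 4, 0, 5, 6, 7, 8, 9, 7, 9, 6, 8, 5] : List ℕ).getD e.val 0)
def ip (v : Fin 10) : Fin 15 := Fin.ofNat 15 (([0, 0, 1, 2, 3, 10, 12, 10, 13, 11] : List ℕ).getD v.val 0)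
def iq (v : Fin 10) : Fin 15 := Fin.ofNat 15 (([4, 1, 2, 3, 4, 14, 13, 11, 14, 12] : List ℕ).getD v.val 0)
def ir (v : Fin 10) : Fin 15 := Fin.ofNat 15 (([5, 6, 7, 8, 9, 5, 6, 7, 8, 9] : List ℕ).getD v.val 0)
def ed (e : Fin 15) : Sym2 (Fin 10) := s(ea e, eb e)

def adj (u v : Fin 10) : Prop := ∃ e : Fin 15, (ea e = u ∧ eb e = v) ∨ (ea e = v ∧ eb e = u)

instance : DecidableRel adj := fun u v => by unfold adj; infer_instance

/-- The Petersen graph. -/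
def pg : SimpleGraph (Fin 10) where
  Adj := adj
  symm := ⟨fun u v => by rintro ⟨e, h⟩; exact ⟨e, h.symm⟩⟩
  loopless := ⟨by decide +kernel⟩

instance : DecidableRel pg.Adj := inferInstanceAs (DecidableRel adj)

def w0 (u v : Fin 10) : ℕ := if u.val + 5 = v.val ∨ v.val + 5 = u.val then 6 else 3

/-- weight 6 on the spokes, 3 on the two pentagons. -/
def wt : Sym2 (Fin 10) → ℕ := Sym2.lift ⟨w0, fun u v => by unfold w0; simp only [or_comm]⟩

theorem wt_mk (u v : Fin 10) : wt s(u, v) = w0 u v := rfl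

theorem path4 : ∀ a b : Fin 10, adj a b → ∃ x y z : Fin 10, adj a x ∧ adj x y ∧ adj y z ∧ adj z b ∧
    x ≠ b ∧ y ≠ a ∧ y ≠ b ∧ z ≠ a ∧ x ≠ a ∧ z ≠ b := by decide +kernel

theorem bridgeless (a b : Fin 10) (h : pg.Adj a b) :
    (pg \ SimpleGraph.fromEdgeSet {s(a, b)}).Reachable a b := by
  obtain ⟨x, y, z, h1, h2, h3, h4, n1, n2, n3, n4, n5, n6⟩ := path4 a b h
  have key : ∀ u v : Fin 10, adj u v → ((u ≠ a ∧ u ≠ b) ∨ (v ≠ a ∧ v ≠ b)) →
      (pg \ SimpleGraph.fromEdgeSet {s(a, b)}).Adj u v := by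
    intro u v huv hn
    rw [SimpleGraph.sdiff_adj, SimpleGraph.fromEdgeSet_adj]
    refine ⟨huv, fun hh => ?_⟩
    have := hh.1
    rw [Set.mem_singleton_iff, Sym2.eq_iff] at this
    tauto
  exact (((key a x h1 (Or.inr ⟨n5, n1⟩)).reachable.trans (key x y h2 (Or.inr ⟨n2, n3⟩)).reachable).trans
    (key y z h3 (Or.inr ⟨n4, n6⟩)).reachable).trans (key z b h4 (Or.inl ⟨n4, n6⟩)).reachable

theorem two_le : ∀ u v, 2 ≤ w0 u v := by decide +kernel
theorem le_six : ∀ u v, w0 u v ≤ 6 := by decide +kernel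

theorem vsum : ∀ v : Fin 10, Even (∑ u : Fin 10, if adj v u then w0 v u else 0) := by decide +kernel

theorem cut : ∀ S : Finset (Fin 10), S ≠ ∅ → S ≠ Finset.univ →
    12 ≤ ∑ u : Fin 10, ∑ v : Fin 10, if (u ∈ S ∧ v ∉ S ∧ adj u v) then w0 u v else 0 := by
  decide +kernel

theorem inc_iff : ∀ v a b : Fin 10, adj a b → ((v = a ∨ v = b) ↔
    (s(a, b) = ed (ip v) ∨ s(a, b) = ed (iq v) ∨ s(a, b) = ed (ir v))) := by decide +kernel

theorem inc_ne : ∀ v : Fin 10, ed (ip v) ≠ ed (iq v) ∧ ed (ip v) ≠ ed (ir v) ∧ ed (iq v) ≠ ed (ir v) := by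
  decide +kernel

theorem inc_mem : ∀ v : Fin 10, v ∈ ed (ip v) ∧ v ∈ ed (iq v) ∧ v ∈ ed (ir v) := by
  simp only [ed, Sym2.mem_iff]
  decide +kernel

def ind (l : List (Sym2 (Fin 10))) (e : Fin 15) : ℕ := if ed e ∈ l then 1 else 0

theorem ind_le (l : List (Sym2 (Fin 10))) (e : Fin 15) : ind l e ≤ 1 := by
  unfold ind; split <;> omega

theorem cyc_even {x : Fin 10} (p : pg.Walk x x) (hp : p.IsCycle) (v : Fin 10) :
    (ind p.edges (ip v) + ind p.edges (iq v) + ind p.edges (ir v)) % 2 = 0 := by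
  have h := (hp.isTrail.even_countP_edges_iff v).2 (fun h => absurd rfl h)
  obtain ⟨n1, n2, n3⟩ := inc_ne v
  have h2 : p.edges.countP (fun e => decide (v ∈ e))
      = ind p.edges (ip v) + ind p.edges (iq v) + ind p.edges (ir v) := by
    rw [List.countP_eq_length_filter, ← List.toFinset_card_of_nodup (hp.isTrail.edges_nodup.filter _)]
    have : (p.edges.filter (fun e => decide (v ∈ e))).toFinset
        = ({ed (ip v), ed (iq v), ed (ir v)} : Finset _).filter (fun e => e ∈ p.edges) := by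
      ext e
      simp only [List.mem_toFinset, List.mem_filter, decide_eq_true_eq, Finset.mem_filter,
        Finset.mem_insert, Finset.mem_singleton]
      constructor
      · rintro ⟨h1, h2⟩
        refine ⟨?_, h1⟩
        have h3 := p.edges_subset_edgeSet h1
        induction e using Sym2.ind with
        | _ a b => exact (inc_iff v a b h3).1 (Sym2.mem_iff.1 h2)
      · rintro ⟨h1, h2⟩
        refine ⟨h2, ?_⟩
        obtain ⟨m1, m2, m3⟩ := inc_mem v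
        rcases h1 with rfl | rfl | rfl <;> assumption
    rw [this, Finset.card_filter, Finset.sum_insert (by simp [n1, n2]),
      Finset.sum_insert (by simp [n3]), Finset.sum_singleton]
    simp only [ind]
    omega
  rw [h2] at h
  exact Nat.even_iff.1 h

theorem ed_adj : ∀ e, adj (ea e) (eb e) := by decide +kernel

theorem no_cover {n : ℕ} (x : Fin n → Fin 10) (p : ∀ i, pg.Walk (x i) (x i)) (hp : ∀ i, (p i).IsCycle)
    (hc : ∀ e, w0 (ea e) (eb e) = ∑ i, ind (p i).edges e) : False := by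
  have h := fam (fun i e => ind (p i).edges e) (fun i e => ind_le _ _)
    (fun i => ⟨cyc_even _ (hp i) 0, cyc_even _ (hp i) 1, cyc_even _ (hp i) 2, cyc_even _ (hp i) 3, cyc_even _ (hp i) 4, cyc_even _ (hp i) 5, cyc_even _ (hp i) 7, cyc_even _ (hp i) 9, cyc_even _ (hp i) 6, cyc_even _ (hp i) 8⟩)
    (fun e => w0 (ea e) (eb e)) hc (by decide +kernel)
  revert h
  decide +kernel

end Pool.Agent.H.MP_5dc923_co
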